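import Pool.Agent.H88.WR.Targets

/-!
Ranges for the weak maximizing property (MP_479f73_an), row AVG: averages of blocks.
-/

set_option autoImplicit false

namespace Pool.Agent.H86.WR
open Filter Topology Set Pool.Agent.H85.WMP Pool.Agent.H88.WR

variable (𝕜 : Type) [RCLike 𝕜]

section

variable {𝕜}

theorem N_zero {M : Set (Finset ℕ)} {N : (ℕ →₀ 𝕜) → ℝ} (hN : TN 𝕜 M N) : N 0 = 0 := by
  have h := hN.smul 0 0
  rw [zero_smul, norm_zero, zero_mul] at h
  exact h

theorem N_nonneg {M : Set (Finset ℕ)} {N : (ℕ →₀ 𝕜) → ℝ} (hN : TN 𝕜 M N) (x : ℕ →₀ 𝕜) :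
    0 ≤ N x := (norm_nonneg (x 0)).trans (hN.coord x 0)

theorem N_sum {M : Set (Finset ℕ)} {N : (ℕ →₀ 𝕜) → ℝ} (hN : TN 𝕜 M N) {ι : Type}
    (s : Finset ι) (f : ι → (ℕ →₀ 𝕜)) : N (∑ j ∈ s, f j) ≤ ∑ j ∈ s, N (f j) := by
  classical
  induction s using Finset.induction_on with
  | empty => rw [Finset.sum_empty, Finset.sum_empty, N_zero hN]
  | insert a s ha ih =>
    rw [Finset.sum_insert ha, Finset.sum_insert ha]
    exact (hN.add _ _).trans (add_le_add le_rfl ih)

theorem N_smul_nonneg {M : Set (Finset ℕ)} {N : (ℕ →₀ 𝕜) → ℝ} (hN : TN 𝕜 M N) (c : ℝ)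
    (hc : 0 ≤ c) (x : ℕ →₀ 𝕜) : N (((c : ℝ) : 𝕜) • x) = c * N x := by
  rw [hN.smul, RCLike.norm_ofReal, abs_of_nonneg hc]

theorem blocks_unique {m : ℕ → ℕ} {x : ℕ → (ℕ →₀ 𝕜)} (hb : Blocks m x) {i j k : ℕ}
    (hj : x j i ≠ 0) (hk : x k i ≠ 0) : j = k := by
  obtain ⟨hm, hs⟩ := hb
  have h1 := hs j i hj
  have h2 := hs k i hk
  rcases lt_trichotomy j k with h | h | h
  · have h3 : m (j + 1) ≤ m k := hm.monotone h
    omega
  · exact h
  · have h3 : m (k + 1) ≤ m j := hm.monotone h
    omega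

/-- a block which is not cut by `A` -/
theorem not_cut {M : Set (Finset ℕ)} {N : (ℕ →₀ 𝕜) → ℝ} (hN : TN 𝕜 M N) {m : ℕ → ℕ}
    {x : ℕ → (ℕ →₀ 𝕜)} (hb : Blocks m x) (A : Finset ℕ) (j : ℕ)
    (hcut : ¬ ∃ a ∈ A, m j < a ∧ a < m (j + 1)) :
    ∑ a ∈ A, N ((x j).filter (Cell A a)) ≤ N (x j) := by
  classical
  push Not at hcut
  -- the cells of the points of the block
  have hcell : ∀ a ∈ A, ∀ i, x j i ≠ 0 → Cell A a i → Cell A a (m j) := by
    intro a ha i hi hc
    have h1 := hb.2 j i hi
    obtain ⟨hc1, hc2⟩ := hc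
    have h2 : a ≤ m j := by
      by_contra hcon
      push Not at hcon
      have := hcut a ha hcon
      omega
    exact ⟨h2, fun b hbA hbm => hc2 b hbA (hbm.trans h1.1)⟩
  have hzero : ∀ a ∈ A, ¬ Cell A a (m j) → (x j).filter (Cell A a) = 0 := by
    intro a ha hna
    ext i
    rw [Finsupp.filter_apply, Finsupp.zero_apply]
    by_cases h : Cell A a i
    · rw [if_pos h]
      by_contra hne
      exact hna (hcell a ha i hne h)
    · rw [if_neg h]
  by_cases hex : ∃ a ∈ A, Cell A a (m j)
  · obtain ⟨a₀, ha₀, hc₀⟩ := hex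
    rw [Finset.sum_eq_single_of_mem a₀ ha₀]
    · exact hN.filter _ _
    · intro b hbA hne
      rw [hzero b hbA, N_zero hN]
      intro hc
      apply hne
      exact le_antisymm (hc₀.2 b hbA hc.1) (hc.2 a₀ ha₀ hc₀.1)
  · push Not at hex
    rw [Finset.sum_eq_zero]
    · exact N_nonneg hN _
    · intro a ha
      rw [hzero a ha (hex a ha), N_zero hN]

end

theorem pf_AVG : T_AVG 𝕜 := by
  classical
  intro M N hG hN m x hb hx ε J hε
  have hm := hb.1
  set φ : ℕ → ℕ := fun j => m (j + 1) with hφ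
  have hφi : Function.Injective φ := fun a b h => by
    have := hm.injective h
    omega
  set L : Set ℕ := φ '' {j | J ≤ j} with hL
  have hLinf : L.Infinite := by
    refine Set.Infinite.image hφi.injOn ?_
    exact Set.infinite_of_not_bddAbove fun ⟨K, hK⟩ => by
      have h1 : max J (K + 1) ≤ K := hK (show J ≤ max J (K + 1) from le_max_left _ _)
      have h2 := le_max_right J (K + 1)
      omega
  obtain ⟨v, ⟨hv0, hv1, hvL⟩, hvM⟩ := hG.ptak L hLinf ε hε
  set w : ℕ →₀ ℝ := v.comapDomain φ hφi.injOn with hw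
  have hwa : ∀ j, w j = v (φ j) := fun j => rfl
  have hw0 : ∀ j, 0 ≤ w j := fun j => hv0 _
  have hw1 : (w.sum fun _ r => r) = 1 := by
    have hbij : Set.BijOn φ (φ ⁻¹' ↑v.support) ↑v.support := by
      refine ⟨fun j hj => hj, hφi.injOn, fun n hn => ?_⟩
      obtain ⟨j, _, hj⟩ := hvL n hn
      exact ⟨j, by rw [Set.mem_preimage, hj]; exact hn, hj⟩
    have h := Finsupp.sum_comapDomain φ v (fun _ r => r) hbij
    rw [← hv1, ← h]
    rfl
  have hw1' : ∑ j ∈ w.support, w j = 1 := hw1
  refine ⟨w, ⟨hw0, hw1, fun j hj => ?_⟩, ?_⟩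
  · rw [hw, Finsupp.comapDomain_support, Finset.mem_preimage] at hj
    obtain ⟨k, hk, hkj⟩ := hvL _ hj
    rw [hφi hkj] at hk
    exact hk
  have hwt : ∀ B : Finset ℕ, B.image φ ∈ M → ∑ j ∈ B, w j ≤ ε := by
    intro B hB
    have h := hvM _ hB
    unfold wt at h
    rwa [Finset.sum_image hφi.injOn] at h
  have hwe : ∀ j, w j ≤ ε := by
    intro j
    have h := hwt {j} (by rw [Finset.image_singleton]; exact hG.single _)
    rwa [Finset.sum_singleton] at h
  set X : ℕ →₀ 𝕜 := ∑ j ∈ w.support, ((w j : ℝ) : 𝕜) • x j with hX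
  refine hN.upp X (1 / 2 + ε) (fun i => ?_) (fun A hA => ?_)
  · have hXi : X i = ∑ j ∈ w.support, ((w j : ℝ) : 𝕜) * x j i := by
      rw [hX, Finsupp.finsetSum_apply]
      rfl
    by_cases hex : ∃ j₀, x j₀ i ≠ 0
    · obtain ⟨j₀, hj₀⟩ := hex
      have h1 : X i = ((w j₀ : ℝ) : 𝕜) * x j₀ i := by
        rw [hXi]
        refine Finset.sum_eq_single j₀ (fun j _ hne => ?_) (fun h => ?_)
        · by_contra hcon
          exact hne (blocks_unique hb (fun h0 => hcon (by rw [h0, mul_zero])) hj₀)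
        · rw [Finsupp.notMem_support_iff.1 h]
          simp
      rw [h1, norm_mul, RCLike.norm_ofReal, abs_of_nonneg (hw0 _)]
      have h2 : ‖x j₀ i‖ ≤ 1 := (hN.coord _ _).trans (hx j₀)
      have h3 : w j₀ * ‖x j₀ i‖ ≤ w j₀ * 1 := mul_le_mul_of_nonneg_left h2 (hw0 _)
      have h4 := hwe j₀
      linarith
    · push Not at hex
      have h1 : X i = 0 := by
        rw [hXi]
        exact Finset.sum_eq_zero fun j _ => by rw [hex j, mul_zero]
      rw [h1, norm_zero]
      positivity
  · -- the sum over the cells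
    set cut : ℕ → Prop := fun j => ∃ a ∈ A, m j < a ∧ a < m (j + 1) with hcut
    set S : ℕ → ℝ := fun j => ∑ a ∈ A, N ((x j).filter (Cell A a)) with hS
    have hS1 : ∀ j, S j ≤ 1 + (if cut j then 1 else 0) := by
      intro j
      by_cases h : cut j
      · rw [if_pos h]
        have h1 := hN.adm A hA (x j)
        have h2 := hx j
        simp only [hS]
        linarith
      · rw [if_neg h]
        have h1 := not_cut hN hb A j h
        have h2 := hx j
        simp only [hS]
        linarith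
    have h1 : ∑ a ∈ A, N (X.filter (Cell A a)) ≤ ∑ j ∈ w.support, w j * S j := by
      have h2 : ∀ a ∈ A, N (X.filter (Cell A a)) ≤
          ∑ j ∈ w.support, w j * N ((x j).filter (Cell A a)) := by
        intro a _
        have h3 : X.filter (Cell A a) = ∑ j ∈ w.support, ((w j : ℝ) : 𝕜) •
            (x j).filter (Cell A a) := by
          rw [hX, Finsupp.filter_sum]
          refine Finset.sum_congr rfl fun j _ => ?_
          rw [Finsupp.filter_smul]
        rw [h3]
        refine (N_sum hN _ _).trans (le_of_eq ?_)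
        exact Finset.sum_congr rfl fun j _ => N_smul_nonneg hN _ (hw0 j) _
      refine (Finset.sum_le_sum h2).trans (le_of_eq ?_)
      rw [Finset.sum_comm]
      refine Finset.sum_congr rfl fun j _ => ?_
      rw [← Finset.mul_sum]
    have h2 : ∑ j ∈ w.support, w j * S j ≤ ∑ j ∈ w.support, w j +
        ∑ j ∈ w.support.filter cut, w j := by
      rw [Finset.sum_filter, ← Finset.sum_add_distrib]
      refine Finset.sum_le_sum fun j _ => ?_
      have h3 := mul_le_mul_of_nonneg_left (hS1 j) (hw0 j)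
      refine h3.trans (le_of_eq ?_)
      by_cases h : cut j
      · rw [if_pos h, if_pos h]
        ring
      · rw [if_neg h, if_neg h]
        ring
    have h3 : ∑ j ∈ w.support.filter cut, w j ≤ ε := by
      apply hwt
      set g : ℕ → ℕ := fun j => if h : cut j then h.choose else 0 with hg
      have hgs : ∀ j, cut j → g j ∈ A ∧ m j < g j ∧ g j < m (j + 1) := by
        intro j hj
        have h4 := hj.choose_spec
        have h5 : g j = hj.choose := by
          simp only [hg]
          rw [dif_pos hj]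
        rw [h5]
        exact ⟨h4.1, h4.2.1, h4.2.2⟩
      have hinv : ∀ j, Function.invFun φ (φ j) = j := Function.leftInverse_invFun hφi
      refine hG.hs A hA _ (fun b => g (Function.invFun φ b)) ?_ ?_
      · intro b hbb
        rw [Finset.mem_image] at hbb
        obtain ⟨j, hj, rfl⟩ := hbb
        rw [Finset.mem_filter] at hj
        have h4 := hgs j hj.2
        simp only [hinv]
        exact ⟨h4.1, h4.2.2.le⟩
      · intro b hbb b' hbb' hlt
        rw [Finset.mem_coe, Finset.mem_image] at hbb hbb'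
        obtain ⟨j, hj, rfl⟩ := hbb
        obtain ⟨j', hj', rfl⟩ := hbb'
        rw [Finset.mem_filter] at hj hj'
        have h4 := hgs j hj.2
        have h5 := hgs j' hj'.2
        simp only [hinv]
        have h6 : j < j' := by
          have := hm.lt_iff_lt.1 hlt
          omega
        have h7 : m (j + 1) ≤ m j' := hm.monotone h6
        omega
    rw [hw1'] at h2
    linarith

end Pool.Agent.H86.WR
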