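import Pool.Agent.H88.WR.Targets

/-!
Ranges for the weak maximizing property (MP_479f73_an), row SML: small averages.
-/

set_option autoImplicit false

namespace Pool.Agent.H86.WR.SML
open Filter Topology Set Pool.Agent.H85.WMP Pool.Agent.H88.WR

variable (𝕜 : Type) [RCLike 𝕜]

section

variable {𝕜}

/-- the combination -/
noncomputable def SX (x : ℕ → (ℕ →₀ 𝕜)) (u : ℕ →₀ ℝ) : ℕ →₀ 𝕜 :=
  ∑ j ∈ u.support, ((u j : ℝ) : 𝕜) • x j

theorem SX_subset (x : ℕ → (ℕ →₀ 𝕜)) (u : ℕ →₀ ℝ) (U : Finset ℕ) (h : u.support ⊆ U) :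
    SX x u = ∑ j ∈ U, ((u j : ℝ) : 𝕜) • x j := by
  unfold SX
  refine Finset.sum_subset h fun j _ hj => ?_
  rw [Finsupp.notMem_support_iff.1 hj, RCLike.ofReal_zero, zero_smul]

/-- the scales -/
noncomputable def JJ (W : ℕ → (ℕ →₀ ℝ)) (J : ℕ) : ℕ → ℕ
  | 0 => J
  | i + 1 => max (JJ W J i) ((W (JJ W J i)).support.sup id) + 1

theorem claim {M : Set (Finset ℕ)} {N : (ℕ →₀ 𝕜) → ℝ} (hG : Good M) (hN : TN 𝕜 M N)
    (hAVG : T_AVG 𝕜) (q : ℕ) : ∀ (m : ℕ → ℕ) (x : ℕ → (ℕ →₀ 𝕜)), Blocks m x →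
    (∀ j, N (x j) ≤ 1) → ∀ J : ℕ, ∃ w : ℕ →₀ ℝ, Cvx {j | J ≤ j} w ∧
      N (SX x w) ≤ (3 / 4 : ℝ) ^ q := by
  classical
  induction q with
  | zero =>
    intro m x hb hx J
    refine ⟨Finsupp.single J 1, ⟨fun n => ?_, ?_, fun n hn => ?_⟩, ?_⟩
    · rw [Finsupp.single_apply]
      split_ifs <;> norm_num
    · rw [Finsupp.sum_single_index rfl]
    · have h := Finsupp.support_single_subset hn
      rw [Finset.mem_singleton] at h
      rw [h]
      exact le_refl J
    · have h1 : SX x (Finsupp.single J 1) = x J := by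
        rw [SX_subset x _ {J} Finsupp.support_single_subset, Finset.sum_singleton,
          Finsupp.single_eq_same, RCLike.ofReal_one, one_smul]
      rw [h1, pow_zero]
      exact hx J
  | succ q ih =>
    intro m x hb hx J
    choose W hW1 hW2 using ih m x hb hx
    set K : ℕ → ℕ := JJ W J with hK
    have hKs : ∀ i, K (i + 1) = max (K i) ((W (K i)).support.sup id) + 1 := fun i => rfl
    have hKm : StrictMono K := strictMono_nat_of_lt_succ fun i => by
      rw [hKs]
      have := le_max_left (K i) ((W (K i)).support.sup id)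
      omega
    have hK0 : ∀ i, J ≤ K i := fun i => hKm.monotone (Nat.zero_le i)
    have hsup : ∀ i, ∀ j ∈ (W (K i)).support, K i ≤ j ∧ j < K (i + 1) := by
      intro i j hj
      refine ⟨(hW1 (K i)).2.2 j hj, ?_⟩
      have h1 : j ≤ (W (K i)).support.sup id := Finset.le_sup (f := id) hj
      rw [hKs]
      have := le_max_right (K i) ((W (K i)).support.sup id)
      omega
    set y : ℕ → (ℕ →₀ 𝕜) := fun i => (((4 / 3 : ℝ) ^ q : ℝ) : 𝕜) • SX x (W (K i)) with hy
    have hyb : Blocks (fun i => m (K i)) y := by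
      refine ⟨fun a b h => hb.1 (hKm h), fun i k hk => ?_⟩
      have h1 : SX x (W (K i)) k ≠ 0 := by
        intro h0
        apply hk
        simp only [hy]
        rw [Finsupp.smul_apply, h0, smul_zero]
      unfold SX at h1
      rw [Finsupp.finsetSum_apply] at h1
      obtain ⟨j, hj, hjk⟩ := Finset.exists_ne_zero_of_sum_ne_zero h1
      have h2 : x j k ≠ 0 := by
        intro h0
        apply hjk
        rw [Finsupp.smul_apply, h0, smul_zero]
      have h3 := hb.2 j k h2
      have h4 := hsup i j hj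
      have h5 : m (K i) ≤ m j := hb.1.monotone h4.1
      have h6 : m (j + 1) ≤ m (K (i + 1)) := hb.1.monotone h4.2
      exact ⟨h5.trans h3.1, h3.2.trans_le h6⟩
    have hyN : ∀ i, N (y i) ≤ 1 := by
      intro i
      simp only [hy]
      rw [hN.smul, RCLike.norm_ofReal, abs_of_nonneg (by positivity)]
      have h1 := hW2 (K i)
      have h2 : (4 / 3 : ℝ) ^ q * N (SX x (W (K i))) ≤ (4 / 3 : ℝ) ^ q * (3 / 4 : ℝ) ^ q :=
        mul_le_mul_of_nonneg_left h1 (by positivity)
      rw [← mul_pow] at h2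
      norm_num at h2
      exact h2
    obtain ⟨v, ⟨hv0, hv1, -⟩, hvN⟩ := hAVG M N hG hN _ y hyb hyN (1 / 4) 0 (by norm_num)
    have hv1' : ∑ i ∈ v.support, v i = 1 := hv1
    set w : ℕ →₀ ℝ := ∑ i ∈ v.support, v i • W (K i) with hw
    have hwa : ∀ j, w j = ∑ i ∈ v.support, v i * W (K i) j := by
      intro j
      rw [hw, Finsupp.finsetSum_apply]
      rfl
    set U : Finset ℕ := v.support.biUnion fun i => (W (K i)).support with hU
    have hUi : ∀ i ∈ v.support, (W (K i)).support ⊆ U := fun i hi =>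
      Finset.subset_biUnion_of_mem (fun i => (W (K i)).support) hi
    have hwU : w.support ⊆ U := by
      intro j hj
      rw [Finsupp.mem_support_iff, hwa] at hj
      obtain ⟨i, hi, hij⟩ := Finset.exists_ne_zero_of_sum_ne_zero hj
      rw [hU, Finset.mem_biUnion]
      exact ⟨i, hi, Finsupp.mem_support_iff.2 fun h0 => hij (by rw [h0, mul_zero])⟩
    have hsumU : ∀ u : ℕ →₀ ℝ, u.support ⊆ U → (u.sum fun _ r => r) = ∑ j ∈ U, u j := by
      intro u hu
      exact Finsupp.sum_of_support_subset u hu _ (fun _ _ => rfl)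
    refine ⟨w, ⟨fun j => ?_, ?_, fun j hj => ?_⟩, ?_⟩
    · rw [hwa]
      exact Finset.sum_nonneg fun i _ => mul_nonneg (hv0 i) ((hW1 (K i)).1 j)
    · rw [hsumU w hwU]
      simp only [hwa]
      rw [Finset.sum_comm, ← hv1']
      refine Finset.sum_congr rfl fun i hi => ?_
      rw [← Finset.mul_sum, ← hsumU _ (hUi i hi), (hW1 (K i)).2.1, mul_one]
    · have h1 := hwU hj
      rw [hU, Finset.mem_biUnion] at h1
      obtain ⟨i, _, hij⟩ := h1
      exact (hK0 i).trans (hsup i j hij).1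
    · have h1 : SX x w = ∑ i ∈ v.support, ((v i : ℝ) : 𝕜) • SX x (W (K i)) := by
        rw [SX_subset x w U hwU]
        have h2 : ∀ j ∈ U, ((w j : ℝ) : 𝕜) • x j =
            ∑ i ∈ v.support, ((v i : ℝ) : 𝕜) • ((W (K i) j : ℝ) : 𝕜) • x j := by
          intro j _
          rw [hwa, RCLike.ofReal_sum, Finset.sum_smul]
          refine Finset.sum_congr rfl fun i _ => ?_
          rw [RCLike.ofReal_mul, mul_smul]
        rw [Finset.sum_congr rfl h2, Finset.sum_comm]
        refine Finset.sum_congr rfl fun i hi => ?_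
        rw [SX_subset x _ U (hUi i hi), Finset.smul_sum]
      have h3 : SX x w = (((3 / 4 : ℝ) ^ q : ℝ) : 𝕜) •
          ∑ i ∈ v.support, ((v i : ℝ) : 𝕜) • y i := by
        rw [h1, Finset.smul_sum]
        refine Finset.sum_congr rfl fun i _ => ?_
        simp only [hy]
        rw [smul_smul, smul_smul]
        congr 1
        rw [← RCLike.ofReal_mul, ← RCLike.ofReal_mul]
        congr 1
        have h4 : (3 / 4 : ℝ) ^ q * (4 / 3 : ℝ) ^ q = 1 := by
          rw [← mul_pow]
          norm_num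
        linear_combination (-(v i)) * h4
      rw [h3, hN.smul, RCLike.norm_ofReal, abs_of_nonneg (by positivity), pow_succ]
      refine mul_le_mul_of_nonneg_left ?_ (by positivity)
      refine hvN.trans (le_of_eq ?_)
      norm_num

end

theorem pf_SML (hAVG : T_AVG 𝕜) : T_SML 𝕜 := by
  intro M N hG hN m x hb hx δ hδ
  obtain ⟨q, hq⟩ := exists_pow_lt_of_lt_one hδ (by norm_num : (3 / 4 : ℝ) < 1)
  obtain ⟨w, ⟨hw0, hw1, -⟩, hwN⟩ := claim hG hN hAVG q m x hb hx 0
  exact ⟨w, ⟨hw0, hw1, fun n _ => Set.mem_univ n⟩, hwN.trans hq.le⟩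

end Pool.Agent.H86.WR.SML
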